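import Pool.Agent.BLP.StmtsD

/-!
# Squad BLP, row D_NVP: no valleys, almost surely
-/

set_option autoImplicit false

namespace Pool.Agent.BLP.H49

open Pool.Agent.BLP
open MeasureTheory ProbabilityTheory Filter Topology Finset
open scoped ENNReal

noncomputable section

/-- the bad event for the tuple, the grid size `G`, the direction `i` and the end level `n` -/
def SB (b : Env) (β : ℚ → ℤ × ℝ → ℤ × ℝ → ℝ) (m k : ℤ) (p q G i : ℕ) (d : ℚ) (n : ℕ) : Prop :=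
  Val ((i : ℝ) / G) (((i : ℝ) + 4) / G) p d q ((n : ℤ) - m).toNat (shT k (shL m b)) ∨
    ¬ Clo b β m k p q (((i : ℚ) + 1) / G) d n ∨ ¬ Clo b β m k p q (((i : ℚ) + 3) / G) d n

/-- the change of the index -/
theorem toNat_tendsto (m : ℤ) : Tendsto (fun N : ℕ => ((N : ℤ) + m).toNat) atTop atTop := by
  rw [tendsto_atTop]
  intro b
  filter_upwards [eventually_ge_atTop (b + m.natAbs)] with N hN
  omega

theorem wv_sq_nonneg (p q : ℕ) (c x y d : ℝ) :
    0 ≤ (p : ℝ) * q * wv c x y ^ 2 / (2 * d ^ 2) := by positivity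

/-- one direction -/
theorem one_dir (fat : FatStmt) (inv : InvStmt) {X : Type} [MeasurableSpace X] {μ : Measure X}
    {B : X → Env} {β : ℚ → ℤ × ℝ → ℤ × ℝ → X → ℝ} {c : ℝ} (hSp : Sp μ B) (hcnt : CntB μ B c)
    (hclo : ∀ (m k : ℤ) (p q : ℕ) (ρ d : ℚ), 0 < ρ → 0 < d →
      Tendsto (fun n : ℕ => μ {x | ¬ Clo (B x) (fun q y z => β q y z x) m k p q ρ d n})
        atTop (𝓝 0))
    (m k : ℤ) {p q G i : ℕ} {d : ℚ} (hp : 1 ≤ p) (hq : 1 ≤ q) (hd : 0 < d) (hG : 1 ≤ G)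
    (hi : 1 ≤ i) :
    μ {x | ∀ᶠ n : ℕ in atTop, SB (B x) (fun q y z => β q y z x) m k p q G i d n} ≤
      ENNReal.ofReal (p * q * wv c ((i : ℝ) / G) (((i : ℝ) + 4) / G) ^ 2 / (2 * (d : ℝ) ^ 2) +
        3 / (G : ℝ) ^ 2) := by
  have hG0 : (0 : ℝ) < G := by exact_mod_cast hG
  have hGq : (0 : ℚ) < G := by exact_mod_cast hG
  have hiq : (0 : ℚ) < i := by exact_mod_cast hi
  have hdr : (0 : ℝ) < d := by exact_mod_cast hd
  have hδ : (0 : ℝ) < 1 / (G : ℝ) ^ 2 := by positivity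
  refine fat X μ (fun n => {x | SB (B x) (fun q y z => β q y z x) m k p q G i d n}) _ ?_
  have h1 := hcnt ((i : ℚ) / G) (((i : ℚ) + 4) / G) p q d (1 / (G : ℝ) ^ 2) (by positivity)
    (by
      apply div_lt_div_of_pos_right _ hGq
      linarith) hp hq hdr hδ
  have e1 : (((i : ℚ) / G : ℚ) : ℝ) = (i : ℝ) / G := by push_cast; rfl
  have e2 : ((((i : ℚ) + 4) / G : ℚ) : ℝ) = ((i : ℝ) + 4) / G := by push_cast; rfl
  rw [e1, e2] at h1
  have hc1 : ∀ᶠ n : ℕ in atTop, μ {x | ¬ Clo (B x) (fun q y z => β q y z x) m k p q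
      (((i : ℚ) + 1) / G) d n} ≤ ENNReal.ofReal (1 / (G : ℝ) ^ 2) := by
    have h2 := hclo m k p q (((i : ℚ) + 1) / G) d (by positivity) hd
    have h3 : (0 : ℝ≥0∞) < ENNReal.ofReal (1 / (G : ℝ) ^ 2) := ENNReal.ofReal_pos.2 hδ
    exact (h2.eventually (gt_mem_nhds h3)).mono fun n hn => le_of_lt hn
  have hc3 : ∀ᶠ n : ℕ in atTop, μ {x | ¬ Clo (B x) (fun q y z => β q y z x) m k p q
      (((i : ℚ) + 3) / G) d n} ≤ ENNReal.ofReal (1 / (G : ℝ) ^ 2) := by
    have h2 := hclo m k p q (((i : ℚ) + 3) / G) d (by positivity) hd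
    have h3 : (0 : ℝ≥0∞) < ENNReal.ofReal (1 / (G : ℝ) ^ 2) := ENNReal.ofReal_pos.2 hδ
    exact (h2.eventually (gt_mem_nhds h3)).mono fun n hn => le_of_lt hn
  have hT := toNat_tendsto m
  have h4 := ((h1.and_eventually (hT.eventually (hc1.and hc3))).and_eventually
    (eventually_ge_atTop m.natAbs))
  refine hT.frequently (p := fun n => μ {x | SB (B x) (fun q y z => β q y z x) m k p q G i d n} ≤
    ENNReal.ofReal (p * q * wv c ((i : ℝ) / G) (((i : ℝ) + 4) / G) ^ 2 / (2 * (d : ℝ) ^ 2) +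
      3 / (G : ℝ) ^ 2)) (h4.mono ?_)
  rintro N ⟨⟨hN1, hN2, hN3⟩, hN4⟩
  obtain ⟨n, hn⟩ : ∃ n, n = ((N : ℤ) + m).toNat := ⟨_, rfl⟩
  have hnN : ((n : ℤ) - m).toNat = N := by omega
  rw [← hn] at hN2 hN3 ⊢
  have hsub : {x | SB (B x) (fun q y z => β q y z x) m k p q G i d n} ⊆
      {x | Val ((i : ℝ) / G) (((i : ℝ) + 4) / G) p d q N (shT k (shL m (B x)))} ∪
      ({x | ¬ Clo (B x) (fun q y z => β q y z x) m k p q (((i : ℚ) + 1) / G) d n} ∪
      {x | ¬ Clo (B x) (fun q y z => β q y z x) m k p q (((i : ℚ) + 3) / G) d n}) := by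
    rintro x (h | h | h)
    · left
      rw [hnN] at h
      exact h
    · right
      left
      exact h
    · right
      right
      exact h
  have h5 := inv X μ B hSp (fun b => Val ((i : ℝ) / G) (((i : ℝ) + 4) / G) p d q N b) m k
  have hw := wv_sq_nonneg p q c ((i : ℝ) / G) (((i : ℝ) + 4) / G) (d : ℝ)
  refine (measure_mono hsub).trans ((measure_union_le _ _).trans ?_)
  have h6 : p * q * wv c ((i : ℝ) / G) (((i : ℝ) + 4) / G) ^ 2 / (2 * (d : ℝ) ^ 2) +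
      3 / (G : ℝ) ^ 2 = (p * q * wv c ((i : ℝ) / G) (((i : ℝ) + 4) / G) ^ 2 /
        (2 * (d : ℝ) ^ 2) + 1 / (G : ℝ) ^ 2) + (1 / (G : ℝ) ^ 2 + 1 / (G : ℝ) ^ 2) := by ring
  rw [h6, ENNReal.ofReal_add (by positivity) (by positivity),
    ENNReal.ofReal_add hδ.le hδ.le]
  refine add_le_add (h5.trans hN1) ((measure_union_le _ _).trans (add_le_add hN2 hN3))

/-- NVP -/
theorem d_nvp : NvpStmt := by
  classical
  intro fat inv wvb X _ μ B β c hSp hc hcnt hclo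
  unfold NoV
  rw [ae_all_iff]
  intro m
  rw [ae_all_iff]
  intro k
  rw [ae_all_iff]
  intro p
  rw [ae_all_iff]
  intro q
  rw [ae_all_iff]
  intro A
  rw [ae_all_iff]
  intro G₀
  rw [ae_all_iff]
  intro d
  rw [ae_all_iff]
  intro hp
  rw [ae_all_iff]
  intro hq
  rw [ae_all_iff]
  intro hA
  rw [ae_all_iff]
  intro hd
  have hdr : (0 : ℝ) < d := by exact_mod_cast hd
  rw [ae_iff]
  have hlim := wvb c p q A (d : ℝ) hc hA hdr
  have hlim2 := ENNReal.tendsto_ofReal hlim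
  rw [ENNReal.ofReal_zero] at hlim2
  refine le_antisymm (ge_of_tendsto hlim2 ?_) zero_le
  filter_upwards [eventually_ge_atTop (max G₀ 1)] with G hG
  have hG1 : G₀ ≤ G := (le_max_left _ _).trans hG
  have hG2 : 1 ≤ G := (le_max_right _ _).trans hG
  obtain ⟨I, hI⟩ : ∃ I : Finset ℕ, I = (Finset.range (A * G + 1)).filter
    (fun i => G ≤ A * i) := ⟨_, rfl⟩
  rw [← hI]
  have hIi : ∀ i ∈ I, 1 ≤ i := by
    intro i hi
    rw [hI] at hi
    have h1 := (Finset.mem_filter.1 hi).2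
    rcases Nat.eq_zero_or_pos i with h | h
    · exfalso
      rw [h, mul_zero] at h1
      omega
    · exact h
  have hsub : {x | ¬ ∃ G : ℕ, G₀ ≤ G ∧ ∀ i : ℕ, G ≤ A * i → i + 4 ≤ A * G →
      ∃ᶠ n : ℕ in atTop,
      ¬ Val ((i : ℝ) / G) (((i : ℝ) + 4) / G) p d q ((n : ℤ) - m).toNat
        (shT k (shL m (B x))) ∧
      Clo (B x) (fun q y z => β q y z x) m k p q (((i : ℚ) + 1) / G) d n ∧
      Clo (B x) (fun q y z => β q y z x) m k p q (((i : ℚ) + 3) / G) d n} ⊆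
      ⋃ i ∈ I, {x | ∀ᶠ n : ℕ in atTop, SB (B x) (fun q y z => β q y z x) m k p q G i d n} := by
    intro x hx
    have h1 : ¬ ∀ i : ℕ, G ≤ A * i → i + 4 ≤ A * G → ∃ᶠ n : ℕ in atTop,
      ¬ Val ((i : ℝ) / G) (((i : ℝ) + 4) / G) p d q ((n : ℤ) - m).toNat
        (shT k (shL m (B x))) ∧
      Clo (B x) (fun q y z => β q y z x) m k p q (((i : ℚ) + 1) / G) d n ∧
      Clo (B x) (fun q y z => β q y z x) m k p q (((i : ℚ) + 3) / G) d n := by
      intro h
      exact hx ⟨G, hG1, h⟩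
    push Not at h1
    obtain ⟨i, hi1, hi2, hi3⟩ := h1
    refine Set.mem_iUnion₂.2 ⟨i, ?_, ?_⟩
    · rw [hI, Finset.mem_filter, Finset.mem_range]
      exact ⟨by omega, hi1⟩
    · refine hi3.mono ?_
      intro n hn
      unfold SB
      by_cases h2 : Val ((i : ℝ) / G) (((i : ℝ) + 4) / G) p d q ((n : ℤ) - m).toNat
        (shT k (shL m (B x)))
      · exact Or.inl h2
      · right
        by_cases h3 : Clo (B x) (fun q y z => β q y z x) m k p q (((i : ℚ) + 1) / G) d n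
        · right
          exact hn h2 h3
        · exact Or.inl h3
  refine (measure_mono hsub).trans ((measure_biUnion_finset_le _ _).trans ?_)
  rw [ENNReal.ofReal_sum_of_nonneg (fun i _ => by positivity)]
  exact Finset.sum_le_sum fun i hi =>
    one_dir fat inv hSp hcnt hclo m k hp hq hd hG2 (hIi i hi)

end

end Pool.Agent.BLP.H49
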