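import Pool.Agent.BLP.StmtsD

/-!
# Squad BLP, row D_WVB: bound for `wv` on the grid
-/

set_option autoImplicit false

namespace Pool.Agent.BLP.H49

open Pool.Agent.BLP
open MeasureTheory ProbabilityTheory Filter Topology Finset
open scoped ENNReal

noncomputable section

theorem wv_bound {c x y : ℝ} {A : ℕ} (hc : 0 < c) (hA : 1 ≤ A) (hx : 1 ≤ A * x) (hxy : x ≤ y) :
    0 ≤ wv c x y ∧ wv c x y ≤ c * A ^ 2 * (y - x) := by
  have hA' : (1 : ℝ) ≤ A := by exact_mod_cast hA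
  have hA0 : (0 : ℝ) < A := by linarith
  have hx0 : 0 < x := by
    by_contra h
    have h1 : (A : ℝ) * x ≤ 0 := mul_nonpos_of_nonneg_of_nonpos hA0.le (not_lt.1 h)
    linarith
  obtain ⟨s, hs⟩ : ∃ s, s = Real.sqrt x := ⟨_, rfl⟩
  obtain ⟨t, ht⟩ : ∃ t, t = Real.sqrt y := ⟨_, rfl⟩
  obtain ⟨r, hr⟩ : ∃ r, r = Real.sqrt A := ⟨_, rfl⟩
  have hs0 : 0 < s := by rw [hs]; exact Real.sqrt_pos.2 hx0
  have hst : s ≤ t := by rw [hs, ht]; exact Real.sqrt_le_sqrt hxy
  have ht0 : 0 < t := hs0.trans_le hst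
  have hs2 : s * s = x := by rw [hs]; exact Real.mul_self_sqrt hx0.le
  have ht2 : t * t = y := by rw [ht]; exact Real.mul_self_sqrt (hx0.le.trans hxy)
  have hr2 : r * r = A := by rw [hr]; exact Real.mul_self_sqrt hA0.le
  have hr1 : 1 ≤ r := by rw [hr]; exact Real.one_le_sqrt.2 hA'
  have hr0 : 0 < r := by linarith
  have hrs : 1 ≤ r * s := by
    rw [hr, hs, ← Real.sqrt_mul hA0.le]
    exact Real.one_le_sqrt.2 hx
  have hrt : 1 ≤ r * t := hrs.trans (mul_le_mul_of_nonneg_left hst hr0.le)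
  have hd : 0 ≤ t - s := by linarith
  have hi : 1 / s - 1 / t = (t - s) / (s * t) := by field_simp
  have hst0 : 0 < s * t := mul_pos hs0 ht0
  have h1 : 0 ≤ 1 / s - 1 / t := by
    rw [hi]
    exact div_nonneg hd hst0.le
  have hinv : 1 / (s * t) ≤ r * r := by
    rw [div_le_iff₀ hst0]
    have h2 : (1 : ℝ) * 1 ≤ (r * s) * (r * t) := mul_le_mul hrs hrt zero_le_one (by positivity)
    linarith [h2, (by ring : (r * s) * (r * t) = r * r * (s * t))]
  have h3 : 1 / s - 1 / t ≤ (t - s) * (r * r) := by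
    rw [hi, div_eq_mul_one_div]
    exact mul_le_mul_of_nonneg_left hinv hd
  have hyx : y - x = (t - s) * (t + s) := by
    rw [← hs2, ← ht2]
    ring
  have h4 : t - s ≤ (y - x) * r := by
    rw [hyx]
    have h5 : 1 ≤ (t + s) * r := by
      have h6 : r * s ≤ (t + s) * r := by nlinarith [mul_pos ht0 hr0]
      linarith
    calc t - s = (t - s) * 1 := (mul_one _).symm
      _ ≤ (t - s) * ((t + s) * r) := mul_le_mul_of_nonneg_left h5 hd
      _ = (t - s) * (t + s) * r := by ring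
  have hyx0 : 0 ≤ y - x := by linarith
  unfold wv
  rw [← hs, ← ht]
  constructor
  · have h5 : 0 ≤ c / 2 := by linarith
    exact mul_nonneg h5 (by linarith)
  · have h5 : (t - s) + (1 / s - 1 / t) ≤ (y - x) * (2 * (A : ℝ) ^ 2) := by
      have e1 : (t - s) + (1 / s - 1 / t) ≤ (t - s) * (1 + r * r) := by linarith
      have e2 : (t - s) * (1 + r * r) ≤ ((y - x) * r) * (1 + r * r) :=
        mul_le_mul_of_nonneg_right h4 (by positivity)
      have e3 : r * (1 + r * r) ≤ 2 * (A : ℝ) ^ 2 := by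
        have e4 : (A : ℝ) ^ 2 = r ^ 4 := by rw [← hr2]; ring
        rw [e4]
        have e5 : r ≤ r ^ 4 := by
          calc r = r ^ 1 := (pow_one r).symm
            _ ≤ r ^ 4 := pow_le_pow_right₀ hr1 (by norm_num)
        have e6 : r ^ 3 ≤ r ^ 4 := pow_le_pow_right₀ hr1 (by norm_num)
        have e7 : r * (1 + r * r) = r + r ^ 3 := by ring
        linarith
      have e8 : ((y - x) * r) * (1 + r * r) = (y - x) * (r * (1 + r * r)) := by ring
      have e9 : (y - x) * (r * (1 + r * r)) ≤ (y - x) * (2 * (A : ℝ) ^ 2) :=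
        mul_le_mul_of_nonneg_left e3 hyx0
      linarith
    have h6 : 0 ≤ c / 2 := by linarith
    calc c / 2 * ((t - s) + (1 / s - 1 / t)) ≤ c / 2 * ((y - x) * (2 * (A : ℝ) ^ 2)) :=
          mul_le_mul_of_nonneg_left h5 h6
      _ = c * A ^ 2 * (y - x) := by ring

/-- WVB -/
theorem d_wvb : WvbStmt := by
  intro c p q A d hc hA hd
  obtain ⟨K, hK⟩ : ∃ K : ℝ, K = p * q * (4 * c * (A : ℝ) ^ 2) ^ 2 / (2 * d ^ 2) + 3 := ⟨_, rfl⟩
  have hlim : Tendsto (fun G : ℕ => (A : ℝ) * K * (G : ℝ)⁻¹ + K * ((G : ℝ)⁻¹ * (G : ℝ)⁻¹))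
      atTop (𝓝 0) := by
    have h1 : Tendsto (fun G : ℕ => (G : ℝ)⁻¹) atTop (𝓝 0) := tendsto_inv_atTop_nhds_zero_nat
    have h2 := (h1.const_mul ((A : ℝ) * K)).add ((h1.mul h1).const_mul K)
    simpa using h2
  refine squeeze_zero' ?_ ?_ hlim
  · filter_upwards [eventually_ge_atTop 1] with G hG
    exact Finset.sum_nonneg fun i _ => by positivity
  · filter_upwards [eventually_ge_atTop 1] with G hG
    have hG0 : (0 : ℝ) < G := by exact_mod_cast hG
    have hterm : ∀ i ∈ (Finset.range (A * G + 1)).filter (fun i => G ≤ A * i),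
        ((p : ℝ) * q * wv c ((i : ℝ) / G) (((i : ℝ) + 4) / G) ^ 2 / (2 * d ^ 2) +
          3 / (G : ℝ) ^ 2) ≤ K * ((G : ℝ)⁻¹ * (G : ℝ)⁻¹) := by
      intro i hi
      have hi1 : G ≤ A * i := (Finset.mem_filter.1 hi).2
      have hi2 : (G : ℝ) ≤ A * i := by exact_mod_cast hi1
      have hx : 1 ≤ (A : ℝ) * ((i : ℝ) / G) := by
        rw [← mul_div_assoc, le_div_iff₀ hG0]
        linarith
      have hxy : (i : ℝ) / G ≤ ((i : ℝ) + 4) / G := by
        apply div_le_div_of_nonneg_right _ hG0.le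
        linarith
      obtain ⟨w0, w1⟩ := wv_bound hc hA hx hxy
      have e1 : ((i : ℝ) + 4) / G - (i : ℝ) / G = 4 * (G : ℝ)⁻¹ := by
        rw [← sub_div, div_eq_mul_inv]
        ring
      rw [e1] at w1
      have e2 : wv c ((i : ℝ) / G) (((i : ℝ) + 4) / G) ^ 2 ≤
          (c * (A : ℝ) ^ 2 * (4 * (G : ℝ)⁻¹)) ^ 2 := pow_le_pow_left₀ w0 w1 2
      have e3 : (p : ℝ) * q * wv c ((i : ℝ) / G) (((i : ℝ) + 4) / G) ^ 2 / (2 * d ^ 2) ≤
          p * q * (c * (A : ℝ) ^ 2 * (4 * (G : ℝ)⁻¹)) ^ 2 / (2 * d ^ 2) := by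
        apply div_le_div_of_nonneg_right _ (by positivity)
        exact mul_le_mul_of_nonneg_left e2 (by positivity)
      have e4 : (p : ℝ) * q * (c * (A : ℝ) ^ 2 * (4 * (G : ℝ)⁻¹)) ^ 2 / (2 * d ^ 2) +
          3 / (G : ℝ) ^ 2 = K * ((G : ℝ)⁻¹ * (G : ℝ)⁻¹) := by
        rw [hK]
        field_simp
      linarith
    have hcard : (((Finset.range (A * G + 1)).filter (fun i => G ≤ A * i)).card : ℝ) ≤
        A * G + 1 := by
      have h1 := Finset.card_filter_le (Finset.range (A * G + 1)) (fun i => G ≤ A * i)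
      rw [Finset.card_range] at h1
      exact_mod_cast h1
    have hK0 : 0 ≤ K := by
      rw [hK]
      positivity
    have hsum := Finset.sum_le_card_nsmul _ _ _ hterm
    rw [nsmul_eq_mul] at hsum
    refine hsum.trans ?_
    have h5 : (((Finset.range (A * G + 1)).filter (fun i => G ≤ A * i)).card : ℝ) *
        (K * ((G : ℝ)⁻¹ * (G : ℝ)⁻¹)) ≤ (A * G + 1) * (K * ((G : ℝ)⁻¹ * (G : ℝ)⁻¹)) :=
      mul_le_mul_of_nonneg_right hcard (by positivity)
    refine h5.trans (le_of_eq ?_)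
    field_simp

end

end Pool.Agent.BLP.H49
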